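import Pool.Agent.MP_ea99c2_gt.Examples

/-!
# Tile number and genus of a virtual knot need not be realised by one rectangular mosaic

All definitions are in `Pool.Agent.MP_ea99c2_gt.Defs`.

The knot is given by a mosaic with nine tiles, in one row, whose eight crossings are connected
in a chord diagram without parallel or crossed-parallel chords in which every crossing is odd.
It is also represented by a `2 × 5` mosaic of genus two. A bracket polynomial type invariant,
a sum over smoothings of the even crossings that counts the fixed interlacement graph, shows that
every diagram contains this interlacement graph; an exhaustive search over the boards with at
most nine tiles, verified by the kernel, then shows that no representing mosaic has fewer than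
nine tiles and that those with nine tiles have genus at least three.
-/

namespace Pool.Agent.Results.MP_ea99c2_gt.NoMinimalTilesAndGenus

open Pool.Agent.MP_ea99c2_gt

/-- There is a virtual knot such that every rectangular mosaic that represents it with the
minimal number of tiles has genus strictly greater than the genus of the knot. -/
theorem result (unoriented : Bool) : ∃ K : VirtualKnot unoriented,
    (∃ D : Mosaic, D.Represents K ∧ D.rows * D.cols = tileNumber K) ∧
    ∀ D : Mosaic, D.Represents K → D.rows * D.cols = tileNumber K →
      knotGenus K < D.genus :=
  main unoriented

end Pool.Agent.Results.MP_ea99c2_gt.NoMinimalTilesAndGenus
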